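import Mathlib

set_option autoImplicit false

namespace Pool.Agent.Results.MP_52661b_pr.SlowMonotoneSets

open Finset

/-! ### Definitions -/

/-- the discrete cube `{0,1}^n` -/
abbrev Cube (n : ℕ) := Fin n → Bool

/-- up-closed sets -/
def IsMonotone {n : ℕ} (A : Finset (Cube n)) : Prop :=
  ∀ x ∈ A, ∀ y : Cube n, (∀ i, x i ≤ y i) → y ∈ A

/-- `x` with coordinate `i` flipped -/
def flip {n : ℕ} (x : Cube n) (i : Fin n) : Cube n := Function.update x i (!(x i))

/-- the censored move: flip coordinate `i` if the result is in `A`, otherwise stay -/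
def move {n : ℕ} (A : Finset (Cube n)) (x : A) (i : Fin n) : A :=
  if h : flip x.1 i ∈ A then ⟨flip x.1 i, h⟩ else x

/-- transition matrix of the lazy censored walk on `A`: stay put with probability `1/2`, otherwise
perform the censored move at a uniformly random coordinate -/
noncomputable def transition {n : ℕ} (A : Finset (Cube n)) : Matrix A A ℝ := fun x y =>
  (1 / 2) * (if y = x then 1 else 0) +
    (1 / 2) * ∑ i : Fin n, (1 / (n : ℝ)) * (if y = move A x i then 1 else 0)

/-- total variation distance of the law after `t` steps from `x` to the uniform distribution -/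
noncomputable def distToUniform {n : ℕ} (A : Finset (Cube n)) (t : ℕ) (x : A) : ℝ :=
  (1 / 2) * ∑ y : A, |((transition A) ^ t) x y - 1 / (A.card : ℝ)|

/-- at time `t` the chain is within total variation distance `1/4` from the uniform distribution,
whatever the starting state; `t_mix(A)` is the least such `t` -/
def Mixed {n : ℕ} (A : Finset (Cube n)) (t : ℕ) : Prop := ∀ x : A, distToUniform A t x ≤ 1 / 4

/-! ### General bottleneck argument -/

section general

variable {V : Type} [Fintype V] [DecidableEq V]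

lemma pow_nonneg_entries (P : Matrix V V ℝ) (h0 : ∀ x y, 0 ≤ P x y) (t : ℕ) :
    ∀ x y, 0 ≤ (P ^ t) x y := by
  induction t with
  | zero => intro x y; rw [pow_zero, Matrix.one_apply]; split_ifs <;> norm_num
  | succ t ih =>
    intro x y
    rw [pow_succ, Matrix.mul_apply]
    exact Finset.sum_nonneg fun z _ => mul_nonneg (ih x z) (h0 z y)

lemma pow_col_sum (P : Matrix V V ℝ) (hc : ∀ y, ∑ x, P x y = 1) (t : ℕ) :
    ∀ y, ∑ x, (P ^ t) x y = 1 := by
  induction t with
  | zero => intro y; simp [Matrix.one_apply]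
  | succ t ih =>
    intro y
    have : ∀ x, (P ^ (t + 1)) x y = ∑ z, (P ^ t) x z * P z y := by
      intro x; rw [pow_succ, Matrix.mul_apply]
    simp_rw [this]
    rw [Finset.sum_comm]
    simp_rw [← Finset.sum_mul, ih, one_mul]
    exact hc y

lemma pow_row_sum (P : Matrix V V ℝ) (hr : ∀ x, ∑ y, P x y = 1) (t : ℕ) :
    ∀ x, ∑ y, (P ^ t) x y = 1 := by
  induction t with
  | zero => intro x; simp [Matrix.one_apply]
  | succ t ih =>
    intro x
    have : ∀ y, (P ^ (t + 1)) x y = ∑ z, (P ^ t) x z * P z y := by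
      intro y; rw [pow_succ, Matrix.mul_apply]
    simp_rw [this]
    rw [Finset.sum_comm]
    simp_rw [← Finset.mul_sum, hr, mul_one]
    exact ih x

lemma escape (P : Matrix V V ℝ) (h0 : ∀ x y, 0 ≤ P x y) (hr : ∀ x, ∑ y, P x y = 1)
    (hc : ∀ y, ∑ x, P x y = 1) (S : Finset V) (t : ℕ) :
    ∑ x ∈ S, ∑ y ∈ Sᶜ, (P ^ t) x y ≤ t * ∑ x ∈ S, ∑ y ∈ Sᶜ, P x y := by
  induction t with
  | zero =>
    simp only [pow_zero, Nat.cast_zero, zero_mul]
    apply le_of_eq
    apply Finset.sum_eq_zero
    intro x hx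
    apply Finset.sum_eq_zero
    intro y hy
    rw [Matrix.one_apply_ne]
    rintro rfl
    exact (Finset.mem_compl.mp hy) hx
  | succ t ih =>
    have hu : ∀ z, ∑ x ∈ S, (P ^ t) x z ≤ 1 := by
      intro z
      rw [← pow_col_sum P hc t z]
      exact Finset.sum_le_sum_of_subset_of_nonneg (Finset.subset_univ _)
        fun x _ _ => pow_nonneg_entries P h0 t x z
    have hu0 : ∀ z, 0 ≤ ∑ x ∈ S, (P ^ t) x z := fun z =>
      Finset.sum_nonneg fun x _ => pow_nonneg_entries P h0 t x z
    have key : ∑ x ∈ S, ∑ y ∈ Sᶜ, (P ^ (t + 1)) x y =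
        ∑ z, (∑ x ∈ S, (P ^ t) x z) * (∑ y ∈ Sᶜ, P z y) := by
      have : ∀ x y, (P ^ (t + 1)) x y = ∑ z, (P ^ t) x z * P z y := by
        intro x y; rw [pow_succ, Matrix.mul_apply]
      simp_rw [this]
      calc ∑ x ∈ S, ∑ y ∈ Sᶜ, ∑ z, (P ^ t) x z * P z y
          = ∑ x ∈ S, ∑ z, ∑ y ∈ Sᶜ, (P ^ t) x z * P z y := by
            apply Finset.sum_congr rfl; intro x _; rw [Finset.sum_comm]
        _ = ∑ z, ∑ x ∈ S, ∑ y ∈ Sᶜ, (P ^ t) x z * P z y := by rw [Finset.sum_comm]
        _ = ∑ z, (∑ x ∈ S, (P ^ t) x z) * (∑ y ∈ Sᶜ, P z y) := by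
            apply Finset.sum_congr rfl; intro z _
            rw [Finset.sum_mul]
            apply Finset.sum_congr rfl; intro x _
            rw [Finset.mul_sum]
    rw [key, ← Finset.sum_add_sum_compl S]
    have b1 : ∑ z ∈ S, (∑ x ∈ S, (P ^ t) x z) * (∑ y ∈ Sᶜ, P z y) ≤
        ∑ z ∈ S, ∑ y ∈ Sᶜ, P z y := by
      apply Finset.sum_le_sum
      intro z _
      have h1 : 0 ≤ ∑ y ∈ Sᶜ, P z y := Finset.sum_nonneg fun y _ => h0 z y
      calc _ ≤ 1 * ∑ y ∈ Sᶜ, P z y := mul_le_mul_of_nonneg_right (hu z) h1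
        _ = _ := one_mul _
    have b2 : ∑ z ∈ Sᶜ, (∑ x ∈ S, (P ^ t) x z) * (∑ y ∈ Sᶜ, P z y) ≤
        ∑ x ∈ S, ∑ z ∈ Sᶜ, (P ^ t) x z := by
      have hcomm : ∑ x ∈ S, ∑ z ∈ Sᶜ, (P ^ t) x z = ∑ z ∈ Sᶜ, ∑ x ∈ S, (P ^ t) x z :=
        Finset.sum_comm
      rw [hcomm]
      apply Finset.sum_le_sum
      intro z _
      have h1 : ∑ y ∈ Sᶜ, P z y ≤ 1 := by
        rw [← hr z]
        exact Finset.sum_le_sum_of_subset_of_nonneg (Finset.subset_univ _) fun y _ _ => h0 z y
      calc _ ≤ (∑ x ∈ S, (P ^ t) x z) * 1 := mul_le_mul_of_nonneg_left h1 (hu0 z)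
        _ = _ := mul_one _
    push_cast
    linarith

lemma not_mixed (P : Matrix V V ℝ) (h0 : ∀ x y, 0 ≤ P x y) (hr : ∀ x, ∑ y, P x y = 1)
    (hc : ∀ y, ∑ x, P x y = 1) (S : Finset V) (hS : S.Nonempty)
    (h2 : 2 * S.card ≤ Fintype.card V) (t : ℕ)
    (hQ : t * ∑ x ∈ S, ∑ y ∈ Sᶜ, P x y < (S.card : ℝ) / 4) :
    ∃ x : V, 1 / 4 < (1 / 2) * ∑ y, |(P ^ t) x y - 1 / (Fintype.card V : ℝ)| := by
  by_contra hcon
  push Not at hcon
  have hScard : (0 : ℝ) < S.card := by exact_mod_cast hS.card_pos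
  have hV : (0 : ℝ) < Fintype.card V := by
    have : 0 < Fintype.card V := by have := hS.card_pos; omega
    exact_mod_cast this
  have h2' : 2 * (S.card : ℝ) ≤ Fintype.card V := by exact_mod_cast h2
  have low : ∀ x, 1 / 4 ≤ ∑ y ∈ Sᶜ, (P ^ t) x y := by
    intro x
    have hx := hcon x
    set d : V → ℝ := fun y => (P ^ t) x y - 1 / (Fintype.card V : ℝ) with hd
    have hsum : ∑ y, d y = 0 := by
      simp only [hd, Finset.sum_sub_distrib, pow_row_sum P hr t x, Finset.sum_const,
        Finset.card_univ, nsmul_eq_mul]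
      field_simp
      ring
    have hsplit : ∑ y ∈ S, d y + ∑ y ∈ Sᶜ, d y = 0 := by
      rw [Finset.sum_add_sum_compl, hsum]
    have habs : ∑ y ∈ S, |d y| + ∑ y ∈ Sᶜ, |d y| = ∑ y, |d y| := Finset.sum_add_sum_compl S _
    have e1 : ∑ y ∈ S, d y ≤ ∑ y ∈ S, |d y| := Finset.sum_le_sum fun y _ => le_abs_self _
    have e2 : -∑ y ∈ Sᶜ, d y ≤ ∑ y ∈ Sᶜ, |d y| := by
      rw [← Finset.sum_neg_distrib]
      exact Finset.sum_le_sum fun y _ => neg_le_abs _
    have e3 : ∑ y ∈ Sᶜ, d y = ∑ y ∈ Sᶜ, (P ^ t) x y - (Sᶜ.card : ℝ) / Fintype.card V := by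
      simp only [hd, Finset.sum_sub_distrib, Finset.sum_const, nsmul_eq_mul]
      ring
    have e4 : (Sᶜ.card : ℝ) = Fintype.card V - S.card := by
      rw [Finset.card_compl, Nat.cast_sub (Finset.card_le_univ S)]
    have e5 : (1 : ℝ) / 2 ≤ (Sᶜ.card : ℝ) / Fintype.card V := by
      rw [e4, le_div_iff₀ hV]
      linarith
    have hx' : (1 / 2) * ∑ y, |d y| ≤ 1 / 4 := hx
    linarith
  have h3 : ∑ x ∈ S, (1 / 4 : ℝ) ≤ ∑ x ∈ S, ∑ y ∈ Sᶜ, (P ^ t) x y :=
    Finset.sum_le_sum fun x _ => low x
  rw [Finset.sum_const, nsmul_eq_mul] at h3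
  have h4 := escape P h0 hr hc S t
  linarith

end general

/-! ### The censored walk -/

lemma flip_flip {n : ℕ} (x : Cube n) (i : Fin n) : flip (flip x i) i = x := by
  unfold flip
  ext j
  by_cases h : j = i
  · subst h; simp
  · simp [Function.update_of_ne h]

lemma move_move {n : ℕ} (A : Finset (Cube n)) (x : A) (i : Fin n) :
    move A (move A x i) i = x := by
  by_cases h : flip x.1 i ∈ A
  · have h1 : move A x i = ⟨flip x.1 i, h⟩ := by unfold move; rw [dif_pos h]
    rw [h1]
    unfold move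
    have h2 : flip (flip x.1 i) i ∈ A := by rw [flip_flip]; exact x.2
    rw [dif_pos h2]
    apply Subtype.ext
    exact flip_flip _ _
  · have h1 : move A x i = x := by unfold move; rw [dif_neg h]
    rw [h1, h1]

lemma move_iff {n : ℕ} (A : Finset (Cube n)) (x y : A) (i : Fin n) :
    y = move A x i ↔ x = move A y i := by
  constructor
  · rintro rfl; rw [move_move]
  · rintro rfl; rw [move_move]

lemma transition_nonneg {n : ℕ} (A : Finset (Cube n)) (x y : A) : 0 ≤ transition A x y := by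
  unfold transition
  apply add_nonneg
  · apply mul_nonneg (by norm_num); split_ifs <;> norm_num
  · apply mul_nonneg (by norm_num)
    apply Finset.sum_nonneg
    intro i _
    apply mul_nonneg (by positivity); split_ifs <;> norm_num

lemma transition_row {n : ℕ} (hn : 0 < n) (A : Finset (Cube n)) (x : A) :
    ∑ y, transition A x y = 1 := by
  unfold transition
  rw [Finset.sum_add_distrib, ← Finset.mul_sum, ← Finset.mul_sum, Finset.sum_comm]
  have h1 : ∑ y : A, (if y = x then (1 : ℝ) else 0) = 1 := by simp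
  have h2 : ∀ i : Fin n, ∑ y : A, (1 / (n : ℝ)) * (if y = move A x i then (1 : ℝ) else 0) = 1 / n := by
    intro i; rw [← Finset.mul_sum]; simp
  rw [h1, Finset.sum_congr rfl (fun i _ => h2 i), Finset.sum_const, Finset.card_univ,
    Fintype.card_fin, nsmul_eq_mul]
  have : (n : ℝ) ≠ 0 := by positivity
  field_simp
  norm_num

lemma transition_symm {n : ℕ} (A : Finset (Cube n)) (x y : A) :
    transition A x y = transition A y x := by
  unfold transition
  congr 1
  · congr 1; simp only [eq_comm]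
  · congr 1
    apply Finset.sum_congr rfl
    intro i _
    congr 1
    simp only [move_iff A x y i]

lemma transition_col {n : ℕ} (hn : 0 < n) (A : Finset (Cube n)) (y : A) :
    ∑ x, transition A x y = 1 := by
  rw [← transition_row hn A y]
  exact Finset.sum_congr rfl fun x _ => transition_symm A x y

/-! ### Two subcubes -/

/-- the subcube of points with all coordinates in `I` equal to one -/
def sub {n : ℕ} (I : Finset (Fin n)) : Finset (Cube n) :=
  Fintype.piFinset fun i => if i ∈ I then {true} else Finset.univ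

lemma mem_sub {n : ℕ} (I : Finset (Fin n)) (x : Cube n) : x ∈ sub I ↔ ∀ i ∈ I, x i = true := by
  unfold sub
  rw [Fintype.mem_piFinset]
  constructor
  · intro h i hi
    have := h i
    rw [if_pos hi] at this
    exact Finset.mem_singleton.mp this
  · intro h i
    by_cases hi : i ∈ I
    · rw [if_pos hi, h i hi]; exact Finset.mem_singleton_self _
    · rw [if_neg hi]; exact Finset.mem_univ _

lemma card_sub {n : ℕ} (I : Finset (Fin n)) : (sub I).card = 2 ^ (n - I.card) := by
  unfold sub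
  rw [Fintype.card_piFinset]
  have : ∀ i : Fin n, (if i ∈ I then ({true} : Finset Bool) else Finset.univ).card =
      if i ∈ I then 1 else 2 := by
    intro i; split_ifs <;> simp
  simp_rw [this]
  rw [Finset.prod_ite]
  simp only [Finset.prod_const_one, one_mul, Finset.prod_const]
  congr 1
  have h : (Finset.univ.filter fun i : Fin n => i ∉ I) = Iᶜ := by
    ext i; simp
  rw [h, Finset.card_compl, Fintype.card_fin]

lemma main_count {n : ℕ} (hn : 0 < n) (I J : Finset (Fin n)) (hIJ : Disjoint I J) {k : ℕ}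
    (hI : I.card = k) (hJ : J.card = k) (hk : 1 ≤ k) (t : ℕ) (ht : 2 * k * t < n * (2 ^ k - 1)) :
    ¬ Mixed (sub I ∪ sub J) t := by
  classical
  set A := sub I ∪ sub J with hA
  have hk2 : 2 * k ≤ n := by
    have := Finset.card_le_univ (I ∪ J)
    rw [Finset.card_union_of_disjoint hIJ, hI, hJ, Fintype.card_fin] at this
    omega
  have hinter : sub I ∩ sub J = sub (I ∪ J) := by
    ext x
    simp only [Finset.mem_inter, mem_sub, Finset.mem_union]
    constructor
    · rintro ⟨h1, h2⟩ i (hi | hi)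
      · exact h1 i hi
      · exact h2 i hi
    · intro h
      exact ⟨fun i hi => h i (Or.inl hi), fun i hi => h i (Or.inr hi)⟩
  have hB : (sub I ∩ sub J).card = 2 ^ (n - 2 * k) := by
    rw [hinter, card_sub, Finset.card_union_of_disjoint hIJ, hI, hJ, two_mul]
  have hcI : (sub I).card = 2 ^ (n - k) := by rw [card_sub, hI]
  have hcJ : (sub J).card = 2 ^ (n - k) := by rw [card_sub, hJ]
  have hcA : A.card + 2 ^ (n - 2 * k) = 2 * 2 ^ (n - k) := by
    have := Finset.card_union_add_card_inter (sub I) (sub J)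
    rw [hcI, hcJ, hB] at this
    rw [hA]; omega
  -- the bottleneck set
  set S : Finset A := Finset.univ.filter fun x => x.1 ∈ sub I ∧ x.1 ∉ sub J with hS
  have hSc : S.card + 2 ^ (n - 2 * k) = 2 ^ (n - k) := by
    have h1 : S.card = (sub I \ sub J).card := by
      apply Finset.card_bij (fun x _ => x.1)
      · intro x hx
        rw [hS, Finset.mem_filter] at hx
        exact Finset.mem_sdiff.mpr hx.2
      · intro x _ y _ h; exact Subtype.ext h
      · intro y hy
        rw [Finset.mem_sdiff] at hy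
        exact ⟨⟨y, Finset.mem_union_left _ hy.1⟩, by rw [hS, Finset.mem_filter]; exact ⟨Finset.mem_univ _, hy⟩, rfl⟩
    have h2 := Finset.card_sdiff_add_card_inter (sub I) (sub J)
    rw [hB, hcI] at h2
    rw [h1]; exact h2
  have hpow : 2 ^ (n - k) = 2 ^ k * 2 ^ (n - 2 * k) := by
    rw [← pow_add]; congr 1; omega
  set b := 2 ^ (n - 2 * k) with hb
  have hbpos : 0 < b := by positivity
  have h2k : 2 ≤ 2 ^ k := by
    calc 2 = 2 ^ 1 := by norm_num
      _ ≤ 2 ^ k := Nat.pow_le_pow_right (by norm_num) hk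
  have hScard : S.card = (2 ^ k - 1) * b := by
    rw [hpow] at hSc
    have : (2 ^ k - 1) * b + b = 2 ^ k * b := by
      rw [← Nat.succ_mul]; congr 1; omega
    omega
  have hSne : S.Nonempty := by
    rw [← Finset.card_pos, hScard]
    exact Nat.mul_pos (by omega) hbpos
  have hcardA : Fintype.card A = A.card := Fintype.card_coe A
  have h2 : 2 * S.card ≤ Fintype.card A := by
    rw [hcardA]; omega
  -- the flow out of `S`
  have hflow : ∑ x ∈ S, ∑ y ∈ Sᶜ, transition A x y ≤ (k * b : ℝ) / (2 * n) := by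
    have hterm : ∀ x ∈ S, ∀ y ∈ Sᶜ, transition A x y =
        ∑ i : Fin n, (1 / (2 * (n : ℝ))) * (if y = move A x i then 1 else 0) := by
      intro x hx y hy
      have hne : y ≠ x := by rintro rfl; exact (Finset.mem_compl.mp hy) hx
      unfold transition
      rw [if_neg hne, mul_zero, zero_add, Finset.mul_sum]
      apply Finset.sum_congr rfl
      intro i _
      ring
    have h1 : ∑ x ∈ S, ∑ y ∈ Sᶜ, transition A x y =
        ∑ x ∈ S, ∑ i : Fin n, (1 / (2 * (n : ℝ))) * (if move A x i ∈ Sᶜ then 1 else 0) := by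
      apply Finset.sum_congr rfl
      intro x hx
      rw [Finset.sum_congr rfl (hterm x hx), Finset.sum_comm]
      apply Finset.sum_congr rfl
      intro i _
      rw [← Finset.mul_sum]
      congr 1
      rw [Finset.sum_ite_eq']
    have h3 : ∑ x ∈ S, ∑ i : Fin n, (1 / (2 * (n : ℝ))) * (if move A x i ∈ Sᶜ then (1 : ℝ) else 0) =
        (1 / (2 * (n : ℝ))) * (((S ×ˢ (Finset.univ : Finset (Fin n))).filter
          fun p => move A p.1 p.2 ∈ Sᶜ).card : ℝ) := by
      rw [← Finset.sum_product' (s := S) (t := (Finset.univ : Finset (Fin n)))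
        (f := fun x i => (1 / (2 * (n : ℝ))) * (if move A x i ∈ Sᶜ then (1 : ℝ) else 0)),
        ← Finset.mul_sum, Finset.card_filter]
      push_cast
      rfl
    have h4 : ((S ×ˢ (Finset.univ : Finset (Fin n))).filter
          fun p => move A p.1 p.2 ∈ Sᶜ).card ≤ k * b := by
      have hle : ((S ×ˢ (Finset.univ : Finset (Fin n))).filter
          fun p => move A p.1 p.2 ∈ Sᶜ).card ≤ (J ×ˢ (sub I ∩ sub J)).card := by
        apply Finset.card_le_card_of_injOn (fun p => (p.2, (move A p.1 p.2).1))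
        · intro p hp
          obtain ⟨x, i⟩ := p
          rw [Finset.mem_coe, Finset.mem_filter, Finset.mem_product] at hp
          obtain ⟨⟨hx, _⟩, hm⟩ := hp
          simp only at hx hm
          rw [hS, Finset.mem_filter] at hx
          obtain ⟨_, hxI, hxJ⟩ := hx
          rw [Finset.mem_compl, hS, Finset.mem_filter] at hm
          have hflip : flip x.1 i ∈ A := by
            by_contra hno
            have : move A x i = x := by unfold move; rw [dif_neg hno]
            rw [this] at hm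
            exact hm ⟨Finset.mem_univ _, hxI, hxJ⟩
          have hmv : (move A x i).1 = flip x.1 i := by unfold move; rw [dif_pos hflip]
          rw [hmv] at hm
          have hval : ∀ j, j ≠ i → flip x.1 i j = x.1 j := fun j hj => by
            unfold flip; exact Function.update_of_ne hj _ _
          -- the flipped point lies in `sub J`
          have hinJ : flip x.1 i ∈ sub J := by
            by_contra hno
            have hinI : flip x.1 i ∈ sub I := by
              rcases Finset.mem_union.mp (show flip x.1 i ∈ sub I ∪ sub J from hflip) with h | h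
              · exact h
              · exact absurd h hno
            exact hm ⟨Finset.mem_univ _, hinI, hno⟩
          have hiJ : i ∈ J := by
            by_contra hno
            apply hxJ
            rw [mem_sub] at hinJ ⊢
            intro j hj
            have hji : j ≠ i := by rintro rfl; exact hno hj
            rw [← hval j hji]; exact hinJ j hj
          have hinI : flip x.1 i ∈ sub I := by
            rw [mem_sub] at hxI ⊢
            intro j hj
            have hji : j ≠ i := by
              rintro rfl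
              exact (Finset.disjoint_left.mp hIJ hj) hiJ
            rw [hval j hji]; exact hxI j hj
          rw [Finset.mem_coe, Finset.mem_product]
          refine ⟨hiJ, ?_⟩
          simp only [hmv]
          exact Finset.mem_inter.mpr ⟨hinI, hinJ⟩
        · intro p _ q _ hpq
          simp only [Prod.mk.injEq] at hpq
          obtain ⟨h5, h6⟩ := hpq
          have h7 : move A p.1 p.2 = move A q.1 q.2 := Subtype.ext h6
          have h8 : p.1 = q.1 := by
            rw [← move_move A p.1 p.2, ← move_move A q.1 q.2, h7, h5]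
          exact Prod.ext h8 h5
      rw [Finset.card_product, hJ, hB] at hle
      exact hle
    rw [h1, h3]
    have hn' : (0 : ℝ) < n := by exact_mod_cast hn
    have h4' : (((S ×ˢ (Finset.univ : Finset (Fin n))).filter
          fun p => move A p.1 p.2 ∈ Sᶜ).card : ℝ) ≤ k * b := by exact_mod_cast h4
    rw [div_mul_eq_mul_div, one_mul]
    exact div_le_div_of_nonneg_right h4' (by positivity)
  have hQ : t * ∑ x ∈ S, ∑ y ∈ Sᶜ, transition A x y < (S.card : ℝ) / 4 := by
    have hn' : (0 : ℝ) < n := by exact_mod_cast hn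
    have hb' : (0 : ℝ) < b := by exact_mod_cast hbpos
    calc (t : ℝ) * ∑ x ∈ S, ∑ y ∈ Sᶜ, transition A x y ≤ t * ((k * b : ℝ) / (2 * n)) :=
          mul_le_mul_of_nonneg_left hflow (Nat.cast_nonneg t)
      _ < (S.card : ℝ) / 4 := by
          rw [hScard]
          have ht' : (2 * k * t : ℝ) < n * ((2 ^ k - 1 : ℕ) : ℝ) := by exact_mod_cast ht
          rw [Nat.cast_mul, ← mul_div_assoc, div_lt_div_iff₀ (by positivity) (by norm_num)]
          nlinarith
  obtain ⟨x, hx⟩ := not_mixed (transition A) (transition_nonneg A) (transition_row hn A)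
    (transition_col hn A) S hSne h2 t hQ
  intro hmix
  have := hmix x
  unfold distToUniform at this
  rw [hcardA] at hx
  linarith

lemma exists_slow {n k : ℕ} (hk : 1 ≤ k) (hkn : 2 * k ≤ n) :
    ∃ A : Finset (Cube n), A.Nonempty ∧ IsMonotone A ∧ 2 ^ n ≤ 2 ^ k * A.card ∧
      ∀ t : ℕ, 2 * k * t < n * (2 ^ k - 1) → ¬ Mixed A t := by
  classical
  have hn : 0 < n := by omega
  obtain ⟨I, _, hI⟩ := Finset.exists_subset_card_eq (s := (Finset.univ : Finset (Fin n))) (n := k)
    (by rw [Finset.card_univ, Fintype.card_fin]; omega)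
  obtain ⟨J, hJs, hJ⟩ := Finset.exists_subset_card_eq (s := Iᶜ) (n := k)
    (by rw [Finset.card_compl, Fintype.card_fin, hI]; omega)
  have hIJ : Disjoint I J := by
    rw [Finset.disjoint_left]
    intro i hi hj
    exact (Finset.mem_compl.mp (hJs hj)) hi
  have hone : (fun _ => true : Cube n) ∈ sub I := by rw [mem_sub]; intro i _; rfl
  refine ⟨sub I ∪ sub J, ⟨_, Finset.mem_union_left _ hone⟩, ?_, ?_, fun t ht =>
    main_count hn I J hIJ hI hJ hk t ht⟩
  · intro x hx y hxy
    have up : ∀ K : Finset (Fin n), x ∈ sub K → y ∈ sub K := by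
      intro K h
      rw [mem_sub] at h ⊢
      intro i hi
      have h1 := hxy i
      rw [h i hi] at h1
      exact Bool.eq_true_of_true_le h1
    rcases Finset.mem_union.mp hx with h | h
    · exact Finset.mem_union_left _ (up I h)
    · exact Finset.mem_union_right _ (up J h)
  · have h1 : (sub I).card ≤ (sub I ∪ sub J).card := Finset.card_le_card Finset.subset_union_left
    rw [card_sub, hI] at h1
    calc 2 ^ n = 2 ^ k * 2 ^ (n - k) := by rw [← pow_add]; congr 1; omega
      _ ≤ 2 ^ k * (sub I ∪ sub J).card := Nat.mul_le_mul_left _ h1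

open Filter in
lemma asymptotic (C ε : ℝ) (hε : 0 < ε) : ∃ N : ℕ, ∀ n : ℕ, N ≤ n → ∃ k : ℕ, 1 ≤ k ∧ 2 * k ≤ n ∧
    (2 : ℝ) ^ k ≤ (Real.log n) ^ (1 + ε) ∧ 2 * k * (C * Real.log n) < 2 ^ k - 1 := by
  set c : ℝ := (1 + ε / 2) / Real.log 2 with hc
  have hlog2 : 0 < Real.log 2 := Real.log_pos (by norm_num)
  have hcpos : 0 < c := by positivity
  have hLn : Tendsto (fun n : ℕ => Real.log (n : ℝ)) atTop atTop :=
    Real.tendsto_log_atTop.comp tendsto_natCast_atTop_atTop
  have e1 : ∀ᶠ L : ℝ in atTop, 1 < L := eventually_gt_atTop 1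
  have hpowt : Tendsto (fun L : ℝ => L ^ (ε / 2)) atTop atTop := tendsto_rpow_atTop (by positivity)
  have e2 : ∀ᶠ L : ℝ in atTop, 2 ≤ L ^ (ε / 2) := hpowt.eventually_ge_atTop 2
  have e3 : ∀ᶠ L : ℝ in atTop, 8 * (|C| + 1) < L ^ (ε / 2) := hpowt.eventually_gt_atTop _
  have e4 : ∀ᶠ L : ℝ in atTop, 8 * (|C| + 1) * (c * Real.log L) ≤ L ^ (ε / 2) := by
    have h := (isLittleO_log_rpow_atTop (r := ε / 2) (by positivity)).def
      (c := 1 / (8 * (|C| + 1) * c)) (by positivity)
    filter_upwards [h, e1] with L h1 h2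
    rw [Real.norm_of_nonneg (Real.log_nonneg h2.le), Real.norm_of_nonneg (by positivity)] at h1
    have h3 : 0 < 8 * (|C| + 1) * c := by positivity
    rw [div_mul_eq_mul_div, one_mul, le_div_iff₀ h3] at h1
    calc 8 * (|C| + 1) * (c * Real.log L) = Real.log L * (8 * (|C| + 1) * c) := by ring
      _ ≤ _ := h1
  have e5 : ∀ᶠ n : ℕ in atTop, 2 * (c * Real.log n + 1) ≤ n := by
    have h := Real.isLittleO_log_id_atTop.def (c := 1 / (4 * c)) (by positivity)
    have h' := tendsto_natCast_atTop_atTop (R := ℝ) |>.eventually h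
    filter_upwards [h', eventually_ge_atTop 4, hLn.eventually e1] with n h1 h2 h3
    rw [Real.norm_of_nonneg (by linarith), Real.norm_of_nonneg (by simp)] at h1
    simp only [id] at h1
    have h4 : 0 < 4 * c := by positivity
    rw [div_mul_eq_mul_div, one_mul, le_div_iff₀ h4] at h1
    have h5 : (4 : ℝ) ≤ n := by exact_mod_cast h2
    nlinarith
  have key := (hLn.eventually (e1.and (e2.and (e3.and e4)))).and e5
  obtain ⟨N, hN⟩ := Filter.eventually_atTop.mp key
  refine ⟨N, fun n hn => ?_⟩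
  obtain ⟨⟨g1, g2, g3, g4⟩, g5⟩ := hN n hn
  set L : ℝ := Real.log n with hL
  have hL0 : 0 < L := by linarith
  have hlogL : 0 < Real.log L := Real.log_pos g1
  set y : ℝ := L ^ (1 + ε / 2) with hy
  have hy1 : 1 < y := Real.one_lt_rpow g1 (by positivity)
  have hlb : Real.logb 2 y = c * Real.log L := by
    rw [Real.logb, hy, Real.log_rpow hL0, hc]; ring
  have hz : 0 < Real.logb 2 y := by rw [hlb]; positivity
  set k := ⌈Real.logb 2 y⌉₊ with hk
  have hk1 : 1 ≤ k := Nat.one_le_iff_ne_zero.mpr (Nat.ceil_pos.mpr hz).ne'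
  have hkle : Real.logb 2 y ≤ k := Nat.le_ceil _
  have hklt : (k : ℝ) < c * Real.log L + 1 := by
    rw [← hlb]; exact Nat.ceil_lt_add_one hz.le
  have hylow : y ≤ 2 ^ k := by
    have h1 : (2 : ℝ) ^ (Real.logb 2 y) = y :=
      Real.rpow_logb (by norm_num) (by norm_num) (by linarith)
    calc y = (2 : ℝ) ^ (Real.logb 2 y) := h1.symm
      _ ≤ (2 : ℝ) ^ (k : ℝ) := Real.rpow_le_rpow_of_exponent_le (by norm_num) hkle
      _ = 2 ^ k := Real.rpow_natCast 2 k
  have hyup : (2 : ℝ) ^ k ≤ 2 * y := by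
    have h1 : (2 : ℝ) ^ (Real.logb 2 y) = y :=
      Real.rpow_logb (by norm_num) (by norm_num) (by linarith)
    calc (2 : ℝ) ^ k = (2 : ℝ) ^ (k : ℝ) := (Real.rpow_natCast 2 k).symm
      _ ≤ (2 : ℝ) ^ (Real.logb 2 y + 1) :=
          Real.rpow_le_rpow_of_exponent_le (by norm_num) (by rw [hlb]; exact hklt.le)
      _ = 2 * y := by rw [Real.rpow_add (by norm_num), h1, Real.rpow_one]; ring
  have hLL : Real.log L ≤ L := (Real.log_le_sub_one_of_pos hL0).trans (by linarith)
  have hsplit1 : L ^ (1 + ε) = L ^ (ε / 2) * y := by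
    rw [hy, ← Real.rpow_add hL0]; congr 1; ring
  have hsplit2 : y = L * L ^ (ε / 2) := by
    rw [hy, Real.rpow_add hL0, Real.rpow_one]
  refine ⟨k, hk1, ?_, ?_, ?_⟩
  · have h1 : (2 * k : ℝ) ≤ n := by
      have : c * Real.log L ≤ c * L := mul_le_mul_of_nonneg_left hLL hcpos.le
      linarith
    exact_mod_cast h1
  · rw [hsplit1]
    calc (2 : ℝ) ^ k ≤ 2 * y := hyup
      _ ≤ L ^ (ε / 2) * y := mul_le_mul_of_nonneg_right g2 (by linarith)
  · have hC : C ≤ |C| := le_abs_self C
    have hCn : 0 ≤ |C| := abs_nonneg C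
    have h2k : (2 : ℝ) ≤ 2 ^ k := by
      calc (2 : ℝ) = 2 ^ 1 := by norm_num
        _ ≤ 2 ^ k := pow_le_pow_right₀ (by norm_num) hk1
    have h1 : 2 * (k : ℝ) * (C * L) ≤ 2 * (c * Real.log L + 1) * ((|C| + 1) * L) := by
      have hk0 : (0 : ℝ) ≤ k := Nat.cast_nonneg k
      calc 2 * (k : ℝ) * (C * L) ≤ 2 * (k : ℝ) * ((|C| + 1) * L) := by
            apply mul_le_mul_of_nonneg_left _ (by positivity)
            apply mul_le_mul_of_nonneg_right _ hL0.le
            linarith
        _ ≤ 2 * (c * Real.log L + 1) * ((|C| + 1) * L) := by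
            apply mul_le_mul_of_nonneg_right _ (by positivity)
            linarith
    have h2 : 2 * (c * Real.log L + 1) * ((|C| + 1) * L) < y / 2 := by
      rw [hsplit2]
      have h3 : 4 * ((|C| + 1) * (c * Real.log L + 1)) < L ^ (ε / 2) := by nlinarith
      nlinarith
    linarith

/-- (1) For all `k ≥ 1` and `n ≥ 2k` there is a nonempty monotone `A ⊆ {0,1}^n` with
`P(A) ≥ 2^(-k)` whose mixing time is at least `n (2^k - 1) / (2k)`.
(2) Hence Q1 fails: for every `C`, even among monotone sets with `P(A) ≥ (log n)^(-1-ε)`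
(any fixed `ε > 0`), for all large `n` the mixing time can be larger than `C n log n`. -/
theorem result :
    (∀ n k : ℕ, 1 ≤ k → 2 * k ≤ n →
      ∃ A : Finset (Cube n), A.Nonempty ∧ IsMonotone A ∧ 2 ^ n ≤ 2 ^ k * A.card ∧
        ∀ t : ℕ, 2 * k * t < n * (2 ^ k - 1) → ¬ Mixed A t) ∧
    (∀ C ε : ℝ, 0 < ε → ∃ N : ℕ, ∀ n : ℕ, N ≤ n →
      ∃ A : Finset (Cube n), A.Nonempty ∧ IsMonotone A ∧
        (2 : ℝ) ^ n ≤ (Real.log n) ^ (1 + ε) * A.card ∧
        ∀ t : ℕ, (t : ℝ) ≤ C * n * Real.log n → ¬ Mixed A t) := by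
  refine ⟨fun n k hk hkn => exists_slow hk hkn, fun C ε hε => ?_⟩
  obtain ⟨N, hN⟩ := asymptotic C ε hε
  refine ⟨max N 2, fun n hn => ?_⟩
  obtain ⟨k, hk1, hk2, hk3, hk4⟩ := hN n (le_trans (le_max_left _ _) hn)
  obtain ⟨A, hne, hmono, hcard, hmix⟩ := exists_slow hk1 hk2
  refine ⟨A, hne, hmono, ?_, fun t ht => hmix t ?_⟩
  · calc (2 : ℝ) ^ n ≤ 2 ^ k * A.card := by exact_mod_cast hcard
      _ ≤ (Real.log n) ^ (1 + ε) * A.card :=
          mul_le_mul_of_nonneg_right hk3 (Nat.cast_nonneg _)
  · have hn0 : (0 : ℝ) < n := by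
      have : 2 ≤ n := le_trans (le_max_right _ _) hn
      have : (2 : ℝ) ≤ n := by exact_mod_cast this
      linarith
    have h1 : (1 : ℕ) ≤ 2 ^ k := Nat.one_le_two_pow
    have h2 : ((2 * k * t : ℕ) : ℝ) < ((n * (2 ^ k - 1) : ℕ) : ℝ) := by
      push_cast [Nat.cast_sub h1]
      calc 2 * (k : ℝ) * t ≤ 2 * k * (C * n * Real.log n) :=
            mul_le_mul_of_nonneg_left ht (by positivity)
        _ = n * (2 * k * (C * Real.log n)) := by ring
        _ < n * (2 ^ k - 1) := mul_lt_mul_of_pos_left hk4 hn0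
    exact_mod_cast h2

end Pool.Agent.Results.MP_52661b_pr.SlowMonotoneSets
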